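import Pool.Agent.X255.NP.Count
import Pool.Agent.X255.NP.Prod

/-!
# Grothendieck's period conjecture in bounded degree and height, up to the monodromy, at almost all ALGEBRAIC NUMBERS
of degree `g`, for all the conjugate fibres together

Let `𝒳 → S` be a family of smooth projective varieties over an open part `S` of the line, for instance over `ℚ`. All
results of the library on the relations between the periods of almost all fibres fix a number field `K` and order the
points of `S` over `K` by their height. Here we treat the algebraic points of degree `g` of the line, in all their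
number fields together: an algebraic number `z` of degree `g` is given by its polynomial
`a_g X ^ g + … + a_0 = a_g (X - z_1) … (X - z_g)`, `a_i ∈ ℤ`, and the fibres at all the conjugates `z_1, …, z_g` are
treated at the same time; their product is the Weil restriction of the fibre at `z` from `ℚ(z)` to `ℚ`. The relations
have coefficients in arbitrary number fields of bounded degree, which may contain all the conjugates and which change
with the point.

The families at the conjugates may be different (`P_i` near `z_i`), and part (2) allows any family over an open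
connected part `U` of the space of the `(z_1, …, z_g)`; for instance the hyperelliptic curves
`y ^ 2 = a_g x ^ g + … + a_0` with the branch points `z_1, …, z_g`.

The definitions:
* `IsRoots a z` : `a_g ≠ 0` and `∑ a_i X ^ i = a_g ∏ (X - z_j)`;
* `relVal c Q = ∑ c_l ∏ (Q v) ^ (l v)` : the value of the relation with the coefficients `c` at the matrix `Q`;
* `Gen U P ξ k T z` : every relation between the entries of `P z`, of degree at most `k` in each entry, with
  coefficients `∑ ξ b * c b`, `b < k`, where the `c b` are integers of a number field of degree at most `k`, with all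
  conjugates at most `T ^ k`, is the value at `z` of a functional relation over `ℂ[z_1, …, z_g]` on `U`, and holds for
  `γ P(z)`, for all `γ` in the Zariski closure of the monodromy;
* `InnerM U k` : points of norm at most `k` at distance at least `1 / k` from the complement of `U`;
* `ExcAlg U P ξ k T` : the integral polynomials `a` with `|a_i| ≤ T` whose roots `z_j` in some order form a point of
  `InnerM U k`, with `|z_i - z_j| ≥ 1 / k`, which is not `Gen`;
* `quoC a = (a_i / a_g)`; `Cov D m Z` : `Z` is covered by at most `m` hypersurfaces of degree at most `D`;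
* `Regular V f`, `RegularM U f` : the field of rational functions is algebraically closed in the field generated by the
  functions `f` (the Zariski closure of the monodromy group is connected; this holds after a finite covering);
* `UPi V` : the product of the `V i`; `blk P z` : the block diagonal matrix of the `P i (z i)`;
* `AlgMonodromy U noY P` : the Zariski closure of the set of the matrices `γ` such that `γ P` is obtained from `P` by
  analytic continuation.
-/

set_option autoImplicit false

namespace Pool.Agent.Results.MP_77d3f5_ag.AlmostAllAlgebraicNumbers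

open Filter Pool.Agent Pool.Agent.X255.NP Pool.Agent.Y890.MV

/-- (1) Let `P i`, `i < g`, be matrices of analytic functions (period matrices) on connected open sets `V i` of the
line, such that `ℂ(x)` is algebraically closed in `ℂ(x)(P i)`, and let `ξ` be a sequence of complex numbers (for
instance the powers of `2 π i`). There is `ω → ∞` such that for all large `T` the integral polynomials
`a_g X ^ g + … + a_0`, `|a_i| ≤ T`, for which some relation of degree at most `ω T` between the entries of
`P 1 (z_1), …, P g (z_g)` with coefficients in a number field of degree at most `ω T`, of size at most `T ^ ω T`, is not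
the value of a functional relation or does not hold on the orbit under the Zariski closure of the monodromy
(`ExcAlg`), lie on at most `T ^ (1 / ω T)` hypersurfaces of degree at most `T ^ (1 / ω T)`; their number is at most
`T ^ (g + 1 / ω T)`, while there are about `(2 T) ^ (g + 1)` polynomials.
(2) The same holds for every matrix of analytic functions on a connected open set of the space of the
`(z_1, …, z_g)`. -/
theorem result :
    (∀ (g : ℕ) (H J : Type) [Fintype H] [DecidableEq H] [Fintype J] [DecidableEq J], 0 < g →
      ∀ (V : Fin g → Set ℂ) (P : Fin g → ℂ → Matrix H J ℂ), (∀ i, IsOpen (V i)) → (∀ i, IsPreconnected (V i)) →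
      (∀ i a b, AnalyticOnNhd ℂ (fun x => P i x a b) (V i)) →
      (∀ i, Y890.SP.Regular (V i) fun (v : H × J) x => P i x v.1 v.2) → ∀ ξ : ℕ → ℂ,
      ∃ (ω : ℝ → ℕ) (T₀ : ℝ), Tendsto ω atTop atTop ∧ Monotone ω ∧ ∀ T, T₀ ≤ T → 0 < ω T ∧
        Y124.Cov ⌊T ^ ((ω T : ℝ)⁻¹)⌋₊ ⌊T ^ ((ω T : ℝ)⁻¹)⌋₊ (quoC '' ExcAlg (UPi V) (blk P) ξ (ω T) T) ∧
        (ExcAlg (UPi V) (blk P) ξ (ω T) T).Finite ∧
        ((ExcAlg (UPi V) (blk P) ξ (ω T) T).ncard : ℝ) ≤ T ^ ((g : ℝ) + (ω T : ℝ)⁻¹)) ∧
    ∀ (g : ℕ) (H J : Type) [Fintype H] [DecidableEq H] [Fintype J] [DecidableEq J], 0 < g →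
      ∀ (U : Set (Fin g → ℂ)) (P : (Fin g → ℂ) → Matrix H J ℂ), IsOpen U → IsPreconnected U →
      (∀ a b, AnalyticOnNhd ℂ (fun x => P x a b) U) → (RegularM U fun (v : H × J) x => P x v.1 v.2) → ∀ ξ : ℕ → ℂ,
      ∃ (ω : ℝ → ℕ) (T₀ : ℝ), Tendsto ω atTop atTop ∧ Monotone ω ∧ ∀ T, T₀ ≤ T → 0 < ω T ∧
        Y124.Cov ⌊T ^ ((ω T : ℝ)⁻¹)⌋₊ ⌊T ^ ((ω T : ℝ)⁻¹)⌋₊ (quoC '' ExcAlg U P ξ (ω T) T) ∧
        (ExcAlg U P ξ (ω T) T).Finite ∧ ((ExcAlg U P ξ (ω T) T).ncard : ℝ) ≤ T ^ ((g : ℝ) + (ω T : ℝ)⁻¹) := by
  refine ⟨?_, ?_⟩
  · intro g H J _ _ _ _ hg V P hVo hVc hP hreg ξ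
    refine excAlg_omega hg ?_ ?_ (blk_an V P hP) (blk_reg V hVc P hP hreg) ξ
    · have h1 : UPi V = Set.univ.pi V := by
        ext z
        simp [UPi]
      rw [h1]
      exact isPreconnected_univ_pi hVc
    · have h1 : UPi V = Set.univ.pi V := by
        ext z
        simp [UPi]
      rw [h1]
      exact isOpen_set_pi Set.finite_univ fun i _ => hVo i
  · intro g H J _ _ _ _ hg U P hUo hU hP hreg ξ
    exact excAlg_omega hg hU hUo hP hreg ξ

end Pool.Agent.Results.MP_77d3f5_ag.AlmostAllAlgebraicNumbers
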