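import Pool.Agent.X255.GB.Mon

/-!
# Grothendieck's period conjecture in bounded degree and height, up to the monodromy, for families over ARBITRARY base
varieties with ARBITRARY monodromy

Let `𝒳 → S` be a family of smooth projective varieties over an irreducible variety `S` of dimension `|X|` over the
algebraic numbers. In a chart of `S(ℂ)` the base is described by local coordinates `x = (x_i)`, `i ∈ X`, in an open
connected set `U` of `ℂ ^ X` (a generically finite map of `S` to the affine space), and by the other coordinate functions
`y_j(x)`, `j ∈ Y`, which are analytic on `U` and algebraic over `ℂ(x)` (`AlgY`); the field `ℂ(x, y)` is the field of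
functions on `S`. Let `P(x)` be the period matrix of the fibre, a matrix of analytic functions on `U`, with rows
indexed by a basis `H` of the homology and columns indexed by a basis `J` of the de Rham cohomology.

The only assumption on the periods is that `ℂ(S)` is algebraically closed in the field `ℂ(S)(P)` (`RegularY`): the
differential Galois group of `P` over `ℂ(S)`, that is the Zariski closure of the monodromy group, is connected. This
always holds after a finite covering of `S`, which is allowed here as the base is arbitrary.

The results of the library on relations between the periods of almost all fibres are about bases which are open parts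
of the affine space with rational coordinates; they do not apply to the points of curves of positive genus or of general
covers of the affine space, and use the precise form of the monodromy group (symplectic, orthogonal) or no monodromy.

The definitions:
* `pt y x` : the point `(y(x), x)` of `S`;
* `relVal a Q = ∑ a_l ∏ (Q v) ^ (l v)` : the value at the matrix `Q` of the polynomial with the coefficients `a`;
* `ExcY δ U y f Lc K io ξ A T` : the points of `S` over `K`, in the compact set `Lc`, with coordinates `x_i` of height
  at most `T` and `y_j` of height at most `T ^ A`, at which some relation of degree at most `δ` in each function, with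
  coefficients `∑ ξ i * c i`, `c i` integers of `K` with all conjugates at most `T ^ A`, is not the value of a
  functional relation with coefficients in `ℂ[x, y]`;
* `Cont U y P V y' P'` : analytic continuation along a chain of connected open sets;
* `IsMonodromy U y P γ` : some analytic continuation of `(y, P)` is `(y, γ P)` on a nonempty open subset of `U`;
* `AlgMonodromy U y P` : the Zariski closure of the monodromy;
* `ExcMon` : the points at which such a relation does not hold on the whole orbit of `P` under `AlgMonodromy`;
* `InnerM U k` : points of norm at most `k` at distance at least `1 / k` from the complement of `U`;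
* `HtLe K T x` : `x` is a quotient of two integers of `K` all of whose conjugates are at most `T`;
* `Cov D m Z` : `Z` is covered by at most `m` hypersurfaces of degree at most `D`.
-/

set_option autoImplicit false

namespace Pool.Agent.Results.MP_77d3f5_ag.ArbitraryBases

open Filter Pool.Agent Pool.Agent.X255.GB Pool.Agent.Y890.MV

/-- There is `ω → ∞` such that for all large `T`, all number fields `K` of degree at most `ω T`, all embeddings of `K`
in `ℂ` and all complex numbers `ξ i`, `i < ω T`, the following holds. The points of `S` over `K`, in the compact part
`InnerM U (ω T)` of the chart, with coordinates `x` of height at most `T` and `y` of height at most `T ^ ω T`, at which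
some relation between the periods of the fibre, of degree at most `ω T` and with coefficients `∑ ξ i * c i`, `c i`
integers of `K` of size at most `T ^ ω T`, is not the value of a functional relation over `ℂ[x, y]`, have images in the
affine space which lie on at most `T ^ (1 / ω T)` hypersurfaces of degree at most `T ^ (1 / ω T)`; and there are at most
`T ^ (1 / ω T) * N ^ (dim S - 1)` of them, `N` being the number of elements of `K` of height at most `T`. At all other
points all these relations hold not only for the period matrix `P` of the fibre but for all `g P`, `g` in the Zariski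
closure of the monodromy group. -/
theorem result {X Y H J : Type} [Fintype X] [DecidableEq X] [Nonempty X] [Fintype Y] [DecidableEq Y]
    [Fintype H] [DecidableEq H] [Fintype J] [DecidableEq J]
    (U : Set (X → ℂ)) (hU : IsPreconnected U) (hUo : IsOpen U) (hne : U.Nonempty)
    (y : Y → (X → ℂ) → ℂ) (hy : ∀ j, AnalyticOnNhd ℂ (y j) U) (halg : AlgY U y)
    (P : (X → ℂ) → Matrix H J ℂ) (hP : ∀ a b, AnalyticOnNhd ℂ (fun x => P x a b) U)
    (hreg : RegularY U y fun (v : H × J) (x : X → ℂ) => P x v.1 v.2) :
    ∃ (ω : ℝ → ℕ) (T₀ : ℝ), Tendsto ω atTop atTop ∧ Monotone ω ∧ ∀ T, T₀ ≤ T → 0 < ω T ∧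
      ∀ (K : Type) [Field K] [NumberField K], Module.finrank ℚ K ≤ ω T → ∀ (io : K →+* ℂ) (ξ : Fin (ω T) → ℂ),
        Y124.Cov ⌊T ^ ((ω T : ℝ)⁻¹)⌋₊ ⌊T ^ ((ω T : ℝ)⁻¹)⌋₊ ((fun (s : X → K) j => io (s j)) ''
          ExcY (ω T) U y (fun (v : H × J) (x : X → ℂ) => P x v.1 v.2) (InnerM U (ω T)) K io ξ (ω T) T) ∧
        (ExcY (ω T) U y (fun (v : H × J) (x : X → ℂ) => P x v.1 v.2) (InnerM U (ω T)) K io ξ (ω T) T).Finite ∧
        ((ExcY (ω T) U y (fun (v : H × J) (x : X → ℂ) => P x v.1 v.2) (InnerM U (ω T)) K io ξ (ω T) T).ncard : ℝ) ≤
          T ^ ((ω T : ℝ)⁻¹) * ({x : K | Y120.HtLe K T x}.ncard : ℝ) ^ (Fintype.card X - 1) ∧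
        ExcMon (ω T) U y P (InnerM U (ω T)) K io ξ (ω T) T ⊆
          ExcY (ω T) U y (fun (v : H × J) (x : X → ℂ) => P x v.1 v.2) (InnerM U (ω T)) K io ξ (ω T) T := by
  obtain ⟨ω, T₀, h1, h2, h3⟩ := excY_omega hU hUo hne hy (f := fun (v : H × J) (x : X → ℂ) => P x v.1 v.2)
    (fun v => hP v.1 v.2) halg hreg
  refine ⟨ω, T₀, h1, h2, fun T hT => ⟨(h3 T hT).1, fun K _ _ hK io ξ => ?_⟩⟩
  obtain ⟨h4, h5, h6⟩ := (h3 T hT).2 K hK io ξ
  exact ⟨h4, h5, h6, excMon_sub hU hy hP _ _ (innerM_sub _ (h3 T hT).1) K io ξ _ _⟩

end Pool.Agent.Results.MP_77d3f5_ag.ArbitraryBases
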