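import Pool.Agent.X299.DR.PIndex

/-!
# MP_77d3f5_ag: the index of the de Rham-Betti classes with algebraic coefficients

Let `X` be a smooth projective variety over an algebraically closed field `K ⊂ ℂ`, for example over
the field of algebraic numbers. A de Rham-Betti class with coefficients in `K` on a power of `X` is
a class `w` in `H^(2j)(X^n, ℚ) ⊗ K` such that `(2 π i)^j w` is in the algebraic de Rham cohomology.
These classes are the elements of `H^(2j)(X^n, ℚ) ⊗ K` which give relations with coefficients in `K`
between the periods of the powers of `X`; Grothendieck's conjecture says that the torsor of periods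
is the motivic one, and implies that all these classes are combinations with coefficients in `K` of
classes of algebraic cycles.

Let `e_n` be the dimension of the space of the de Rham-Betti classes with coefficients in `K` on
`X^n`, and let `r_n` be the rank of the group of algebraic cycles on `X^n` modulo numerical
equivalence (the rank of the intersection form on the cycle classes). We prove unconditionally: the
quotient `e_n / r_n` tends to a positive integer `N` or to infinity, the quotients for the even
powers of `X` are at most `N`, and `N = 1` if and only if `e_n = r_n` for all `n`; then all de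
Rham-Betti classes with coefficients are combinations of classes of cycles. If `N` is finite, then
homological and numerical equivalence agree on all powers of `X`, and all de Rham-Betti classes with
coefficients in `K` are combinations with coefficients in `K` of rational classes which are de
Rham-Betti classes and Hodge classes. So there are no relations with coefficients in `K` except
those from rational Hodge classes already if `e_n` is at most a constant multiple of `r_n` for
infinitely many `n`.
-/

set_option autoImplicit false

open CategoryTheory AlgebraicGeometry Filter Topology

open scoped ENNReal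

universe u

namespace Pool.Agent.Results.MP_77d3f5_ag.CoefficientIndexLaw

open Pool.Agent.H914 Pool.Agent.H914.VarClass Pool.Agent.Y129 Pool.Agent.Y121.AHS
  Pool.Agent.X299

theorem result {k : Type u} [Field k] {𝒱 : VarClass k} {ops : CycleOps 𝒱}
    (T : HodgeTheory ops) (P : Periods T) (hP : IsAlgClosed P.V.K) (X : 𝒱.Obj)
    [Nontrivial (T.W.H X)] :
    ∃ N : ℕ∞, 1 ≤ N ∧ Tendsto (overRatio P X) atTop (𝓝 (N : ℝ≥0∞)) ∧
      (∀ n, overRatio P X (2 * n + 1) ≤ (N : ℝ≥0∞)) ∧
      (N = 1 ↔ ∀ n, dimAll P.U.K (IsDRBOver P (pw X n)) = cycleRank T (pw X n)) ∧
      (N = 1 → ∀ n j w, IsDRBOver P (pw X n) j w →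
        IsSum P.d.s (P.b.e (pw X n)) (IsCycClass T (pw X n) j) w) ∧
      (N ≠ ⊤ → ∀ n, cycleRank T (pw X n) = spanRank T.W.K {x | ∃ j, IsCycClass T (pw X n) j x} ∧
        dimAll P.U.K (IsDRBOver P (pw X n)) = dimAll T.W.K (IsHDR P (pw X n)) ∧
        ∀ j w, IsDRBOver P (pw X n) j w →
          IsSum P.d.s (P.b.e (pw X n)) (IsHDR P (pw X n) j) w) :=
  over_index_hodge P

end Pool.Agent.Results.MP_77d3f5_ag.CoefficientIndexLaw
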