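import Pool.Agent.X255.NH.Final

/-!
# Almost all tuples of hyperelliptic curves over `ℚ`, ordered by height

Fix `n : ι → ℕ`, `ι` finite, all `n i` even. A tuple of monic polynomials
`f i = x ^ (n i + 1) + ∑ r, c ⟨i, r⟩ x ^ r` of odd degrees `n i + 1` with integral coefficients gives the hyperelliptic
curves `y ^ 2 = f i (x)` of genus `n i / 2` over `ℚ`.
-/

open Polynomial Filter NumberField
open scoped Classical

noncomputable section

namespace Pool.Agent.Results.MP_77d3f5_ag.HyperellipticByHeight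

variable {ι : Type}

/-- the polynomial `f i` with the coefficients `c` -/
def poly (n : ι → ℕ) (c : (Σ i, Fin (n i + 1)) → ℤ) (i : ι) : ℂ[X] :=
  X ^ (n i + 1) + ∑ r : Fin (n i + 1), C (c ⟨i, r⟩ : ℂ) * X ^ (r : ℕ)

/-- the segment `x(θ) = z l + (z (l + 1) - z l) sin² θ`, `0 ≤ θ ≤ π / 2`, from `z l` to `z (l + 1)` -/
def seg {n : ℕ} (z : Fin (n + 1) → ℂ) (l : Fin n) (θ : ℝ) : ℂ :=
  z l.castSucc + (z l.succ - z l.castSucc) * (Real.sin θ : ℂ) ^ 2

/-- its derivative `x'(θ)` -/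
def dseg {n : ℕ} (z : Fin (n + 1) → ℂ) (l : Fin n) (θ : ℝ) : ℂ :=
  2 * (z l.succ - z l.castSucc) * (Real.sin θ : ℂ) * (Real.cos θ : ℂ)

/-- `P` is a period matrix of the hyperelliptic curve with the finite branch points `z 0, …, z n`: `P l j` is the
integral of `x ^ j dx / y` along a continuous lift of the segment from `z l` to `z (l + 1)` to the curve
`y ^ 2 = (-1) ^ (n - l) * ∏ (x - z r)` -/
def IsPeriodMatrix {n : ℕ} (z : Fin (n + 1) → ℂ) (P : Matrix (Fin n) (Fin n) ℂ) : Prop :=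
  ∀ l : Fin n, ∃ y : ℝ → ℂ, ContinuousOn y (Set.Icc 0 (Real.pi / 2)) ∧
    (∀ θ ∈ Set.Icc (0 : ℝ) (Real.pi / 2), y θ ^ 2 = (-1) ^ (n - (l : ℕ)) * ∏ r, (seg z l θ - z r)) ∧
    ∀ j : Fin n, P l j = ∫ θ in (0 : ℝ)..(Real.pi / 2), seg z l θ ^ (j : ℕ) * dseg z l θ / y θ

/-- the polarization on the differential forms `x ^ j dx / y`: the matrix `((a - b) / 2 * f_(a + b + 2))`,
`f = ∑ f_k x ^ k` -/
def Q (n : ℕ) (f : ℂ[X]) : Matrix (Fin n) (Fin n) ℂ :=
  Matrix.of fun a b => (((a : ℕ) : ℂ) - ((b : ℕ) : ℂ)) / 2 * f.coeff ((a : ℕ) + (b : ℕ) + 2)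

/-- the intersection form: `-(-1) ^ r` at `(r, s)` with `|r - s| = 1`, `0` elsewhere -/
def J (n : ℕ) : Matrix (Fin n) (Fin n) ℂ :=
  Matrix.of fun r s => if (r : ℕ) = s + 1 ∨ (s : ℕ) = r + 1 then -(-1) ^ (r : ℕ) else 0

/-- the torsor defined by the polarizations: the `(Y, μ)`, `μ ≠ 0`, with `Y i * Q * (Y i)ᵀ = μ / (2 i) * J` for all
`i` (the period relations of Riemann and Legendre for `μ = 2 π i`) -/
def Torsor (n : ι → ℕ) (c : (Σ i, Fin (n i + 1)) → ℤ) : Set ((∀ i, Matrix (Fin (n i)) (Fin (n i)) ℂ) × ℂ) :=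
  {p | p.2 ≠ 0 ∧ ∀ i, p.1 i * Q (n i) (poly n c i) * (p.1 i).transpose = (p.2 / (2 * Complex.I)) • J (n i)}

variable [Fintype ι] [DecidableEq ι]

/-- the value at the entries of the matrices `Y i` of the polynomial of degree at most `k` in each variable with the
coefficients `∑ b, w b * c l b`, `b < k` -/
def value {n : ι → ℕ} {k : ℕ} (c : ((Σ i, Fin (n i) × Fin (n i)) → Fin (k + 1)) → Fin k → ℂ) (w : Fin k → ℂ)
    (Y : ∀ i, Matrix (Fin (n i)) (Fin (n i)) ℂ) : ℂ :=
  ∑ l, (∑ b, w b * c l b) * ∏ v : Σ i, Fin (n i) × Fin (n i), Y v.1 v.2.1 v.2.2 ^ (l v : ℕ)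

/-- The curves `y ^ 2 = f i (x)` are generic up to complexity `k`: for a direction `lam` and the numbering of the roots
`z` of the `f i` by the real parts of `lam * z`, the polynomials `f i` have no multiple roots, the period matrices `P i`
satisfy the relations of Riemann and Legendre, and all polynomial relations over number fields of degree at most `k`
between the periods, of degree at most `k` in each period, with integral coefficients of size at most `B ^ k`, with
coefficients in the span of the numbers `ξ b`, `b < k`, respectively of the powers `(2 π i) ^ b`, `b < k`, follow from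
these: they hold on the torsor (with `2 π i` replaced by `μ` in the second case). -/
def Generic (n : ι → ℕ) (ξ : ℕ → ℂ) (k B : ℕ) (c : (Σ i, Fin (n i + 1)) → ℤ) : Prop :=
  ∃ (lam : ℂ) (z : (Σ i, Fin (n i + 1)) → ℂ) (P : ∀ i, Matrix (Fin (n i)) (Fin (n i)) ℂ),
    ‖lam‖ = 1 ∧ (∀ i (r s : Fin (n i + 1)), r < s → (lam * z ⟨i, r⟩).re < (lam * z ⟨i, s⟩).re) ∧
    (∀ i, poly n c i = ∏ r, (X - C (z ⟨i, r⟩))) ∧ (∀ i, IsPeriodMatrix (fun r => z ⟨i, r⟩) (P i)) ∧
    (P, 2 * Real.pi * Complex.I) ∈ Torsor n c ∧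
    ∀ (K : Type) [Field K] [NumberField K], Module.finrank ℚ K ≤ k → ∀ (io : K →+* ℂ)
      (γ : ((Σ i, Fin (n i) × Fin (n i)) → Fin (k + 1)) → Fin k → 𝓞 K),
      (∀ l b (φ : K →+* ℂ), ‖φ (γ l b : K)‖ ≤ (B : ℝ) ^ k) →
      (value (fun l b => io (γ l b : K)) (fun b => ξ b) P = 0 →
        ∀ Y, (Y, 2 * Real.pi * Complex.I) ∈ Torsor n c → value (fun l b => io (γ l b : K)) (fun b => ξ b) Y = 0) ∧
      (value (fun l b => io (γ l b : K)) (fun b => (2 * Real.pi * Complex.I) ^ (b : ℕ)) P = 0 →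
        ∀ p ∈ Torsor n c, value (fun l b => io (γ l b : K)) (fun b => p.2 ^ (b : ℕ)) p.1 = 0)

/-- the tuples of height at most `B`: the coefficient of `x ^ r` in `f i` is of absolute value at most
`B ^ (n i + 1 - r)` -/
def box (n : ι → ℕ) (B : ℕ) : Finset ((Σ i, Fin (n i + 1)) → ℤ) :=
  Fintype.piFinset fun q => Finset.Icc (-((B ^ (n q.1 + 1 - (q.2 : ℕ)) : ℕ) : ℤ)) ((B ^ (n q.1 + 1 - (q.2 : ℕ)) : ℕ) : ℤ)

/-- **Grothendieck's period conjecture for relations of bounded complexity holds for 100% of the tuples of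
hyperelliptic curves over `ℚ` with a rational Weierstrass point, ordered by height.** For every sequence `ξ` of complex
numbers there is a function `ω` tending to infinity such that for all `B` the proportion of the tuples of height at
most `B` which are not generic up to complexity `ω B` is at most `1 / ω B`. -/
theorem result [Nonempty ι] (n : ι → ℕ) (hn : ∀ i, Even (n i)) (ξ : ℕ → ℂ) :
    ∃ ω : ℕ → ℕ, Tendsto ω atTop atTop ∧ Monotone ω ∧ ∀ B,
      ω B * ((box n B).filter fun c => ¬ Generic n ξ (ω B) B c).card ≤ (box n B).card :=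
  Pool.Agent.X255.NH.almost_all n hn ξ

end Pool.Agent.Results.MP_77d3f5_ag.HyperellipticByHeight
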